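import Pool.Agent.Y762.HP.Core
import Pool.Agent.Y762.HK.Fin

/-!
The family of the pairs `(k, χ)` with odd `k`: final constants.
-/

open Complex Filter Topology Set MeasureTheory
open H370 (zset mult NN Nd Ns)

set_option autoImplicit false
set_option maxHeartbeats 4000000

namespace Pool.Agent.Y762.HP

open H385 hiding ee ee_norm ee_add SS
open Pool.Agent.H304R3.HK (tc LamK bb one_le_norm_tc)
open Pool.Agent.W354.PK (HCk LK aK bK lck lck_logC goodK)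
open Pool.Agent.Y762.HK (PrimData)
open Pool.Agent.Y762 (cH const_choice gam_ok)

theorem hp_fin (cd : (q : ZI) → MulChar (RQ q) ℂ → ZI)
    (pr : (q : ZI) → MulChar (RQ q) ℂ → (ZI →* ℂ))
    (hprim : ∀ (q : ZI) (_ : q ≠ 0) (χ : MulChar (RQ q) ℂ), PrimData q χ (cd q χ) (pr q χ))
    (h ε : ℝ) (hh : 1 / 2 < h) (hh1 : h ≤ 1) (hε : 0 < ε) :
    ∃ C0 : ℝ, 1 ≤ C0 ∧ ∀ (q : ZI) (K : ℕ) (T : ℝ), q ≠ 0 → 4 < nrm q → 1 ≤ K →
      C0 * (1 + Real.sqrt (Real.log (‖tc q‖ * (1 + 2 * K)))) ≤ T →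
      Real.exp (2 * h * Real.log (‖tc q‖ * (1 + 2 * K + T))) ≤ ‖tc q‖ ^ 2 * K * T →
      (2 - (cH h + ε)) * ∑ x ∈ FamP q K, (NN (LK x.1 (pr q x.2)) T (2 * T) : ℝ) ≤
        ∑ x ∈ FamP q K, (Ns (LK x.1 (pr q x.2)) T (2 * T) : ℝ) ∧
      (3 - (cH h + ε)) * ∑ x ∈ FamP q K, (NN (LK x.1 (pr q x.2)) T (2 * T) : ℝ) ≤
        2 * ∑ x ∈ FamP q K, (Nd (LK x.1 (pr q x.2)) T (2 * T) : ℝ) ∧
      (1 - ε) * (T / Real.pi * Real.log (‖tc q‖ * (1 + 2 * K + T))) * ((FamP q K).card : ℝ) ≤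
        ∑ x ∈ FamP q K, (NN (LK x.1 (pr q x.2)) T (2 * T) : ℝ) := by
  obtain ⟨s, e, hs0, hs1, he0, heε, hβ0, hβ1, hconst⟩ :=
    const_choice h ε (by linarith) hh1 hε
  obtain ⟨hγ0, hγπ⟩ := gam_ok h (by linarith) hh1
  have hβh : 2 * (h * (1 - s)) < 2 * h := by nlinarith
  obtain ⟨C0, hC0, H⟩ := hp_core cd pr hprim h (Real.sqrt 2 * h) (2 * (h * (1 - s))) e hh hh1
    hγ0 hγπ (by linarith) hβh he0
  refine ⟨C0, hC0, ?_⟩
  intro q K T hq hq4 hK hT hX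
  obtain ⟨r0, r1, r2, r3⟩ := H q K T hq hq4 hK hT hX
  have hn1 := one_le_norm_tc hq
  have hK1 : (1 : ℝ) ≤ K := by exact_mod_cast hK
  have hT1 : 1 ≤ T := by
    refine le_trans ?_ hT
    have := Real.sqrt_nonneg (Real.log (‖tc q‖ * (1 + 2 * K)))
    nlinarith
  have hS0 : 0 ≤ ∑ x ∈ FamP q K, (NN (LK x.1 (pr q x.2)) T (2 * T) : ℝ) :=
    Finset.sum_nonneg fun _ _ => Nat.cast_nonneg _
  have e1 : 2 * Rw (Real.sqrt 2 * h) 0 / (2 * (h * (1 - s))) =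
      Rw (Real.sqrt 2 * h) 0 / (h * (1 - s)) := by
    rw [mul_div_mul_left _ _ (by norm_num)]
  rw [e1] at r1 r2
  have h1 := mul_le_mul_of_nonneg_right hconst hS0
  rw [Finset.sum_sub_distrib, ← Finset.mul_sum] at r1
  rw [Finset.sum_sub_distrib, ← Finset.mul_sum, ← Finset.mul_sum] at r2
  refine ⟨by linarith, by linarith, ?_⟩
  refine le_trans ?_ r3
  refine mul_le_mul_of_nonneg_right ?_ (Nat.cast_nonneg _)
  have hlog : 0 ≤ Real.log (‖tc q‖ * (1 + 2 * K + T)) :=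
    Real.log_nonneg (one_le_mul_of_one_le_of_one_le hn1 (by linarith))
  have h2 : 0 ≤ T / Real.pi * Real.log (‖tc q‖ * (1 + 2 * K + T)) :=
    mul_nonneg (div_nonneg (by linarith) Real.pi_pos.le) hlog
  exact mul_le_mul_of_nonneg_right (by linarith) h2

end Pool.Agent.Y762.HP
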