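import Pool.Agent.Y762.HP.Param
import Pool.Agent.Y762.HK.Core

/-!
The core estimate for the family of all the pairs `(k, χ)`, `k` odd, `k < 2 J`, `χ` modulo `q`.
-/

open Complex Filter Topology Set MeasureTheory
open H370 (zset mult NN Nd Ns)

set_option autoImplicit false
set_option maxHeartbeats 4000000

namespace Pool.Agent.Y762.HP

open H385 hiding ee ee_norm ee_add SS
open Pool.Agent.H304R3.HK (tc LamK bb one_le_norm_tc)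
open Pool.Agent.W354.MS (nrm_real)
open Pool.Agent.W354.PK (HCk LK aK bK lck lck_logC goodK)
open Pool.Agent.W354 (LogC GoodE)
open Pool.Agent.W354.E (fam_abstract_E fam_abstract_d_E N_lower_E)
open Pool.Agent.W354.FK (fk_tail)
open Pool.Agent.Y762.HK (Lg Lg_one OD OD_nonneg PrimData Fam mem_Fam card_Fam nrm_pos
  low_one low_final hk_height cond_fam fam_facts)

theorem card_FamP_pos (q : ZI) (hq : 4 < nrm q) (K : ℕ) (hK : 1 ≤ K) : 0 < (FamP q K).card := by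
  have hq0 : q ≠ 0 := by
    rintro rfl
    simp [nrm] at hq
  obtain ⟨-, hφ, -⟩ := fq_finite q hq0
  have hφ0 : (0 : ℝ) < phiQ q := by exact_mod_cast hφ
  have hK1 : (1 : ℝ) ≤ K := by exact_mod_cast hK
  have : (0 : ℝ) < ((FamP q K).card : ℝ) := by
    rw [card_FamP q hq K]
    positivity
  exact_mod_cast this

/-- membership facts -/
theorem fam_factsP (cd : (q : ZI) → MulChar (RQ q) ℂ → ZI)
    (pr : (q : ZI) → MulChar (RQ q) ℂ → (ZI →* ℂ))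
    (hprim : ∀ (q : ZI) (_ : q ≠ 0) (χ : MulChar (RQ q) ℂ), PrimData q χ (cd q χ) (pr q χ))
    (q : ZI) (hq : q ≠ 0) (K : ℕ) (T : ℝ) (hT : 1 ≤ T) :
    ∀ x ∈ FamP q K, 1 ≤ x.1 ∧ HCk x.1 (cd q x.2) (pr q x.2) ∧ 1 ≤ ‖tc (cd q x.2)‖ ∧
      lck x.1 ‖tc (cd q x.2)‖ T ≤ Real.log (‖tc q‖ * (1 + 2 * K + T)) := by
  intro x hx
  have h := fam_facts cd pr hprim q hq 1 (2 * K) T le_rfl hT x (FamP_sub q hq K hx)
  push_cast at h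
  exact h

/-- the average of the logarithms of the analytic conductors -/
theorem cond_famP (cd : (q : ZI) → MulChar (RQ q) ℂ → ZI)
    (pr : (q : ZI) → MulChar (RQ q) ℂ → (ZI →* ℂ))
    (hprim : ∀ (q : ZI) (_ : q ≠ 0) (χ : MulChar (RQ q) ℂ), PrimData q χ (cd q χ) (pr q χ))
    (ε : ℝ) (hε : 0 < ε) :
    ∃ C : ℝ, 0 < C ∧ ∀ (q : ZI) (K : ℕ) (T : ℝ), q ≠ 0 → 4 < nrm q → 1 ≤ K → 1 ≤ T →
      ∑ x ∈ FamP q K, (Real.log (‖tc q‖ * (1 + 2 * K + T)) - lck x.1 ‖tc (cd q x.2)‖ T) ≤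
        (ε * Real.log ‖tc q‖ + C) * ((FamP q K).card : ℝ) := by
  classical
  obtain ⟨C, hC, h⟩ := cond_fam cd pr hprim (ε / 2) (by positivity)
  refine ⟨2 * C, by positivity, ?_⟩
  intro q K T hq hq4 hK hT
  have h1 := h q 1 (2 * K) T hq (by omega) hT (by
    rw [card_Fam q hq4]
    have : (0 : ℝ) ≤ (phiQ q : ℝ) * ((2 * K : ℕ) : ℝ) := by positivity
    linarith)
  have hff := fam_facts cd pr hprim q hq 1 (2 * K) T le_rfl hT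
  have h2 : ∑ x ∈ FamP q K, (Real.log (‖tc q‖ * (((1 : ℕ) : ℝ) + ((2 * K : ℕ) : ℝ) + T)) -
      lck x.1 ‖tc (cd q x.2)‖ T) ≤ ∑ x ∈ Fam q 1 (2 * K),
      (Real.log (‖tc q‖ * (((1 : ℕ) : ℝ) + ((2 * K : ℕ) : ℝ) + T)) -
      lck x.1 ‖tc (cd q x.2)‖ T) := by
    refine Finset.sum_le_sum_of_subset_of_nonneg (FamP_sub q hq K) ?_
    intro x hx _
    have := (hff x hx).2.2.2
    linarith
  have h3 := h2.trans h1
  rw [card_Fam q hq4] at h3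
  rw [card_FamP q hq4]
  push_cast at h3
  refine h3.trans (le_of_eq ?_)
  ring

/-- lower bound for the number of zeros -/
theorem hp_low' (cd : (q : ZI) → MulChar (RQ q) ℂ → ZI)
    (pr : (q : ZI) → MulChar (RQ q) ℂ → (ZI →* ℂ))
    (hprim : ∀ (q : ZI) (_ : q ≠ 0) (χ : MulChar (RQ q) ℂ), PrimData q χ (cd q χ) (pr q χ))
    (A : ℝ) (hA1 : 1 ≤ A)
    (hgood : ∀ (k : ℕ) (q : GaussianInt) (χ : GaussianInt →* ℂ), 1 ≤ k → HCk k q χ →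
      GoodE 2 A (lck k ‖tc q‖) (LK k χ) (aK k χ)) :
    ∃ C2 : ℝ, 0 < C2 ∧ ∀ ε1 : ℝ, 0 < ε1 → ∃ C3 : ℝ, 0 < C3 ∧
      ∀ (q : ZI) (K : ℕ) (T κ ℒ F : ℝ), q ≠ 0 → 4 < nrm q → 1 ≤ K →
      1 ≤ T → 3 ≤ κ → 8 * κ ≤ T → ℒ = Real.log (‖tc q‖ * (1 + 2 * K + T)) → 0 < ℒ →
      Real.log ‖tc q‖ ≤ ℒ → C3 ≤ ε1 / 2 * ℒ → F = ((FamP q K).card : ℝ) → 0 < F →
      ℒ ^ 2 * Real.exp (-κ ^ 2 / 2) ≤ 1 →
      T / (2 * Real.pi) * ℒ * (1 - ε1) - C2 * (T + κ * ℒ) ≤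
        (∑ x ∈ FamP q K, (1 / F) * (NN (LK x.1 (pr q x.2)) T (2 * T) : ℝ)) / 2 := by
  classical
  obtain ⟨C2, hC2, hlow⟩ := N_lower_E 2 A (by norm_num) hA1
  refine ⟨C2, hC2, fun ε1 hε1 => ?_⟩
  obtain ⟨C3, hC3, hcond3⟩ := cond_famP cd pr hprim (ε1 / 2) (by positivity)
  refine ⟨C3, hC3, ?_⟩
  intro q K T κ ℒ F hq hq4 hK hT1 p1 hκ8 hℒd hℒ0 hlq hC3ℒ hFd hF0 p6
  have hT0 : 0 < T := by linarith
  have hκ0 : 0 ≤ κ := by linarith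
  have hcr0 : 0 ≤ 1 / F := div_nonneg zero_le_one hF0.le
  have hff := fam_factsP cd pr hprim q hq K T hT1
  have hpt : ∀ x ∈ FamP q K,
      2 * (T / (2 * Real.pi) * (ℒ - (ℒ - lck x.1 ‖tc (cd q x.2)‖ T)) - C2 * (T + κ * ℒ)) ≤
      (NN (LK x.1 (pr q x.2)) T (2 * T) : ℝ) := by
    intro x hx
    obtain ⟨g1, g2, g3, g4⟩ := hff x hx
    rw [← hℒd] at g4
    have hl := hlow (lck x.1 ‖tc (cd q x.2)‖) (LK x.1 (pr q x.2)) (aK x.1 (pr q x.2))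
      (lck_logC _ g3) (hgood _ _ _ g1 g2) T κ p1 hκ8
    have hn : 0 ≤ lck x.1 ‖tc (cd q x.2)‖ T := (lck_logC _ g3).nonneg hT1
    have e1 : ℒ - (ℒ - lck x.1 ‖tc (cd q x.2)‖ T) = lck x.1 ‖tc (cd q x.2)‖ T := by ring
    rw [e1]
    exact low_one C2 hC2 T κ ℒ _ _ hT0 hκ0 hℒ0 hn g4 p6 hl
  have hsum := Finset.sum_le_sum fun x hx => mul_le_mul_of_nonneg_left (hpt x hx) hcr0
  have hcs := hcond3 q K T hq hq4 hK hT1
  rw [← hℒd, ← hFd] at hcs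
  obtain ⟨Sc, hSc⟩ : ∃ Sc : ℝ, Sc = ∑ x ∈ FamP q K, (ℒ - lck x.1 ‖tc (cd q x.2)‖ T) := ⟨_, rfl⟩
  rw [← hSc] at hcs
  have e2 : ∑ x ∈ FamP q K, (1 / F) *
      (2 * (T / (2 * Real.pi) * (ℒ - (ℒ - lck x.1 ‖tc (cd q x.2)‖ T)) - C2 * (T + κ * ℒ))) =
      2 * (T / (2 * Real.pi) * (ℒ - Sc / F) - C2 * (T + κ * ℒ)) := by
    rw [← Finset.mul_sum, ← Finset.mul_sum, Finset.sum_sub_distrib, ← Finset.mul_sum,
      Finset.sum_sub_distrib, ← hSc, Finset.sum_const, Finset.sum_const, nsmul_eq_mul,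
      nsmul_eq_mul, ← hFd]
    exact he_aux F _ ℒ Sc _ hF0.ne'
  rw [e2] at hsum
  have hSc2 : Sc / F ≤ ε1 * ℒ := by
    rw [div_le_iff₀ hF0]
    refine hcs.trans (mul_le_mul_of_nonneg_right ?_ hF0.le)
    have h4 : ε1 / 2 * Real.log ‖tc q‖ ≤ ε1 / 2 * ℒ := mul_le_mul_of_nonneg_left hlq (by positivity)
    linarith
  have h5 : T / (2 * Real.pi) * ℒ * (1 - ε1) ≤ T / (2 * Real.pi) * (ℒ - Sc / F) := by
    have : T / (2 * Real.pi) * ℒ * (1 - ε1) = T / (2 * Real.pi) * (ℒ - ε1 * ℒ) := by ring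
    rw [this]
    exact mul_le_mul_of_nonneg_left (by linarith) (by positivity)
  linarith

/-- the mean square and its majorant for the family -/
theorem hp_ms (cd : (q : ZI) → MulChar (RQ q) ℂ → ZI)
    (pr : (q : ZI) → MulChar (RQ q) ℂ → (ZI →* ℂ))
    (hprim : ∀ (q : ZI) (_ : q ≠ 0) (χ : MulChar (RQ q) ℂ), PrimData q χ (cd q χ) (pr q χ))
    (h γ β ε1 : ℝ) (hh : 1 / 2 < h) (hh1 : h ≤ 1) (h0 : 0 < γ) (hπ : γ < Real.pi) (hβ : 0 < β)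
    (hβ1 : β < 2 * h) (hε : 0 < ε1) :
    ∃ L0 εs : ℝ, 1 ≤ L0 ∧ 0 < εs ∧ ∀ (q : ZI) (K : ℕ) (T κ ℒ : ℝ), q ≠ 0 → 4 < nrm q →
      1 ≤ K → 1 ≤ T → L0 ≤ ℒ → ℒ = Real.log (‖tc q‖ * (1 + 2 * K + T)) → Real.log ‖tc q‖ ≤ ℒ →
      Real.exp (2 * h * ℒ) ≤ ‖tc q‖ ^ 2 * K * T → 1 ≤ κ → T ≤ Real.exp (κ ^ 2) → κ ≤ εs * T →
      0 < (FamP q K).card ∧
      ∃ (Y : ℝ → ℝ) (y1 y2 : ℝ), 0 ≤ y1 ∧ 0 ≤ y2 ∧
        Real.sqrt y1 + Real.sqrt y2 ≤ ε1 * ℒ ∧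
        (∀ u ∈ Set.Icc 0 (β * ℒ), Y u ≤ T * (y1 * (u + 1) + y2)) ∧
        (2 / (Real.sqrt Real.pi * (β * ℒ))) *
          (∫ u in (0 : ℝ)..(β * ℒ), Rw γ (u / (β * ℒ)) * Y u) ≤
          T / (2 * Real.pi) * ℒ * (2 * β * (∫ α in (0 : ℝ)..1, α * Rw γ α) + ε1) ∧
        IntervalIntegrable Y volume 0 (β * ℒ) ∧
        ∀ u ∈ Set.Icc 0 (β * ℒ), ∫ t : ℝ, ∑ x ∈ FamP q K, (1 / ((FamP q K).card : ℝ)) *
          ‖∑' n : ℕ, aK x.1 (pr q x.2) n * ((Real.sqrt n : ℂ)⁻¹ * bt T u t (Real.log n))‖ ^ 2 ≤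
          Y u := by
  classical
  obtain ⟨CS0, hCS0, hS, hcK, hlam⟩ := selb_cK
  set J0 : ℝ := ∫ α in (0 : ℝ)..1, α * Rw γ α with hJ0d
  have hJ00 : 0 ≤ J0 := I1_nonneg γ h0 hπ
  have hβ2 : β < 2 := by linarith
  obtain ⟨C5, hC5, hint⟩ := full_ms2
  obtain ⟨δ, hδ, hδ1, hδ2⟩ : ∃ δ : ℝ, 0 < δ ∧ δ ≤ 1 ∧ 2 * β * J0 * δ ≤ ε1 / 4 := by
    refine ⟨min 1 (ε1 / 4 / (2 * β * J0 + 1)), lt_min one_pos (by positivity), min_le_left _ _, ?_⟩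
    calc 2 * β * J0 * min 1 (ε1 / 4 / (2 * β * J0 + 1)) ≤
        (2 * β * J0 + 1) * (ε1 / 4 / (2 * β * J0 + 1)) := by
          gcongr
          · linarith
          · exact min_le_right _ _
      _ = ε1 / 4 := by field_simp
  obtain ⟨L1, hL1, hpoint⟩ := YH_point cK CS0 hS ε1 C5 hε hC5 δ hδ hδ1
  obtain ⟨L2, η2, hL2, hη2, hYint⟩ := YH_integral cK CS0 hS γ β ε1 C5 h0 hπ hβ hβ2 hε hC5 δ
    hδ hδ1 hδ2
  set s : ℝ := (2 * h - β) / 4 with hs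
  have hs0 : 0 < s := by rw [hs]; linarith
  have hβs : β = 2 * h - 4 * s := by rw [hs]; ring
  obtain ⟨L3, hL3, htail⟩ := fk_tail s hs0
  set εs : ℝ := min (1 / 4) η2 with hεs
  have hεs0 : 0 < εs := lt_min (by norm_num) hη2
  have hεs1 : εs ≤ 1 / 4 := min_le_left _ _
  have hεs2 : εs ≤ η2 := min_le_right _ _
  obtain ⟨L4, hL4, hpar⟩ := hp_param h s (εs / 4) hh hh1 hs0 (by positivity)
  refine ⟨L1 + L2 + L3 + L4, εs, by linarith, hεs0, ?_⟩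
  intro q K T κ ℒ hq hq4 hK hT1 hL hℒd hlq hX hκ1 hκ2 hκs
  have hT0 : 0 < T := by linarith
  have hℒL1 : L1 ≤ ℒ := by linarith
  have hℒL2 : L2 ≤ ℒ := by linarith
  have hℒL3 : L3 ≤ ℒ := by linarith
  have hℒL4 : L4 ≤ ℒ := by linarith
  have hℒ0 : 0 < ℒ := by linarith
  obtain ⟨N, hN1, hNb, hN⟩ := htail (β * ℒ) ℒ hℒL3 (by positivity)
    (mul_le_mul_of_nonneg_right hβ2.le hℒ0.le)
  have hNb' : (N : ℝ) ≤ 2 * Real.exp ((2 * h - 4 * s) * ℒ + s * ℒ) := by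
    rw [← hβs]
    exact hNb
  have q1 := hpar q K N T ℒ hq hK hT1 hℒL4 hℒd hX hN1 hNb'
  have q4 := card_FamP_pos q hq4 K hK
  refine ⟨q4, ?_⟩
  obtain ⟨F, hFd⟩ : ∃ F : ℝ, F = ((FamP q K).card : ℝ) := ⟨_, rfl⟩
  have hF0 : 0 < F := by rw [hFd]; exact_mod_cast q4
  have hφ0 : (0 : ℝ) ≤ phiQ q := Nat.cast_nonneg _
  have hcardP := card_FamP q hq4 K
  have hρ : (phiQ q : ℝ) * K / 4 ≤ (1 + εs) * ((FamP q K).card : ℝ) := by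
    rw [← hcardP]
    have : (0 : ℝ) ≤ ((FamP q K).card : ℝ) := Nat.cast_nonneg _
    nlinarith
  have hODb : (phiQ q : ℝ) * Lg N ^ 2 * (OD q N T K + OD2 q N T K) ≤
      εs * T * ((FamP q K).card : ℝ) := by
    rw [hcardP]
    calc (phiQ q : ℝ) * Lg N ^ 2 * (OD q N T K + OD2 q N T K) =
        (phiQ q : ℝ) * (Lg N ^ 2 * (OD q N T K + OD2 q N T K)) := by ring
      _ ≤ (phiQ q : ℝ) * (εs / 4 * (T * K)) := mul_le_mul_of_nonneg_left q1 hφ0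
      _ = _ := by ring
  have hκY0 : 0 ≤ εs * T := by positivity
  have hκY1 : εs * T ≤ T := by nlinarith
  have hκY2 : εs * T ≤ η2 * T := mul_le_mul_of_nonneg_right hεs2 hT0.le
  have hnq1 : 1 ≤ nrm q := nrm_pos hq
  have hlogn : Real.log ((nrm q : ℕ) : ℝ) ≤ 2 * ℒ := by
    rw [nrm_real, Real.log_pow]
    push_cast
    linarith
  obtain ⟨y1, y2, hy1, hy2, m2', m5⟩ := hpoint (nrm q) T (εs * T) ℒ hnq1 hT1 hℒL1 hlogn hκY0 hκY1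
  have m4 := hYint (nrm q) T (εs * T) ℒ hnq1 hT1 hℒL2 hlogn hκY0 hκY2
  refine ⟨YH cK δ C5 (nrm q) T (εs * T), y1, y2, hy1, hy2, m5, fun u hu => m2' u hu.1, m4,
    (YH_cont _ CS0 hS _ _ _ _ _).intervalIntegrable _ _, ?_⟩
  intro u hu
  exact hint q K N (cd q) (pr q) T κ εs δ u hq hq4 (hprim q hq) hN1 hκ1 hT1 hκ2 hu.1 hδ
    hεs0.le (by linarith) (hN u hu) q4 hκs hρ hODb

/-- the core estimate -/
theorem hp_core (cd : (q : ZI) → MulChar (RQ q) ℂ → ZI)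
    (pr : (q : ZI) → MulChar (RQ q) ℂ → (ZI →* ℂ))
    (hprim : ∀ (q : ZI) (_ : q ≠ 0) (χ : MulChar (RQ q) ℂ), PrimData q χ (cd q χ) (pr q χ))
    (h γ β ε : ℝ) (hh : 1 / 2 < h) (hh1 : h ≤ 1) (h0 : 0 < γ) (hπ : γ < Real.pi) (hβ : 0 < β)
    (hβ1 : β < 2 * h) (hε : 0 < ε) :
    ∃ C0 : ℝ, 1 ≤ C0 ∧ ∀ (q : ZI) (K : ℕ) (T : ℝ), q ≠ 0 → 4 < nrm q → 1 ≤ K →
      C0 * (1 + Real.sqrt (Real.log (‖tc q‖ * (1 + 2 * K)))) ≤ T →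
      Real.exp (2 * h * Real.log (‖tc q‖ * (1 + 2 * K + T))) ≤ ‖tc q‖ ^ 2 * K * T →
      0 < (FamP q K).card ∧
      (∑ x ∈ FamP q K, (2 * (NN (LK x.1 (pr q x.2)) T (2 * T) : ℝ) -
          (Ns (LK x.1 (pr q x.2)) T (2 * T) : ℝ)) ≤
        (2 * Rw γ 0 / β + β * (∫ α in (0 : ℝ)..1, α * Rw γ α) + ε) *
        ∑ x ∈ FamP q K, (NN (LK x.1 (pr q x.2)) T (2 * T) : ℝ)) ∧
      (∑ x ∈ FamP q K, (3 * (NN (LK x.1 (pr q x.2)) T (2 * T) : ℝ) -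
          2 * (Nd (LK x.1 (pr q x.2)) T (2 * T) : ℝ)) ≤
        (2 * Rw γ 0 / β + β * (∫ α in (0 : ℝ)..1, α * Rw γ α) + ε) *
        ∑ x ∈ FamP q K, (NN (LK x.1 (pr q x.2)) T (2 * T) : ℝ)) ∧
      (1 - ε) * (T / Real.pi * Real.log (‖tc q‖ * (1 + 2 * K + T))) * ((FamP q K).card : ℝ) ≤
        ∑ x ∈ FamP q K, (NN (LK x.1 (pr q x.2)) T (2 * T) : ℝ) := by
  classical
  obtain ⟨A, hA1, hgood⟩ := goodK
  have hgood' : ∀ (k : ℕ) (q : GaussianInt) (χ : GaussianInt →* ℂ), 1 ≤ k → HCk k q χ →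
      GoodE 2 A (lck k ‖tc q‖) (LK k χ) (aK k χ) := fun k q χ hk H => (hgood k q χ hk H).2.2.2
  obtain ⟨C1, hC1, hfam⟩ := fam_abstract_E γ h0 hπ 2 A (by norm_num) hA1
  obtain ⟨C1', hC1', hfam'⟩ := fam_abstract_d_E γ h0 hπ 2 A (by norm_num) hA1
  set J0 : ℝ := ∫ α in (0 : ℝ)..1, α * Rw γ α with hJ0d
  have hJ00 : 0 ≤ J0 := I1_nonneg γ h0 hπ
  have hR0 : 0 ≤ Rw γ 0 := Rw_nonneg γ h0 hπ 0
  set CC : ℝ := max C1 C1' with hCC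
  have hCC0 : 0 < CC := lt_max_of_lt_left hC1
  have hβ2 : β < 2 := by linarith
  -- the constant of the lower bound does not depend on its parameter
  obtain ⟨C2, hC2, hlowall⟩ : ∃ C2 : ℝ, 0 < C2 ∧ ∀ ε1 : ℝ, 0 < ε1 → ∃ C3 : ℝ, 0 < C3 ∧
      ∀ (q : ZI) (K : ℕ) (T κ ℒ F : ℝ), q ≠ 0 → 4 < nrm q → 1 ≤ K →
      1 ≤ T → 3 ≤ κ → 8 * κ ≤ T → ℒ = Real.log (‖tc q‖ * (1 + 2 * K + T)) → 0 < ℒ →
      Real.log ‖tc q‖ ≤ ℒ → C3 ≤ ε1 / 2 * ℒ → F = ((FamP q K).card : ℝ) → 0 < F →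
      ℒ ^ 2 * Real.exp (-κ ^ 2 / 2) ≤ 1 →
      T / (2 * Real.pi) * ℒ * (1 - ε1) - C2 * (T + κ * ℒ) ≤
        (∑ x ∈ FamP q K, (1 / F) * (NN (LK x.1 (pr q x.2)) T (2 * T) : ℝ)) / 2 :=
    hp_low' cd pr hprim A hA1 hgood'
  obtain ⟨ε1a, L0, hε1a, hL0, hnum⟩ := cyc_num (4 * Rw γ 0) (2 * β * J0) β (2 * ε) CC C2
    (by positivity) (by positivity) hβ (by positivity) hCC0 hC2
  -- a smaller parameter
  set ε1 : ℝ := min ε1a (ε / 4) with hε1d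
  have hε1 : 0 < ε1 := lt_min hε1a (by positivity)
  have hε1le : ε1 ≤ ε1a := min_le_left _ _
  have hε1ε : ε1 ≤ ε / 4 := min_le_right _ _
  obtain ⟨C3, hC3, hlow⟩ := hlowall ε1 hε1
  obtain ⟨L1, εs, hL1, hεs0, hms⟩ := hp_ms cd pr hprim h γ β ε1 hh hh1 h0 hπ hβ hβ1 hε1
  obtain ⟨C0, hC01, hheight⟩ := hk_height (L0 + L1 + 1 / β + 2 * C3 / ε1 + 32 * C2 / ε)
    (min (min (min ε1 εs) (1 / 8)) (ε / (32 * (C2 + 1)))) (by positivity)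
  refine ⟨C0, hC01, ?_⟩
  intro q K T hq hq4 hK hT hX
  obtain ⟨ℒ, hℒd⟩ : ∃ ℒ : ℝ, ℒ = Real.log (‖tc q‖ * (1 + 2 * K + T)) := ⟨_, rfl⟩
  obtain ⟨hLL, hT1, hlogT, hκT, hlq⟩ := hheight ‖tc q‖ 1 (2 * K) T (one_le_norm_tc hq)
    le_rfl (by
      have : (1 : ℝ) ≤ K := by exact_mod_cast hK
      linarith) hT
  rw [← hℒd] at hLL hlogT hκT hlq hX ⊢
  clear hheight hT hlowall
  have hT0 : 0 < T := by linarith
  have hβi : 0 < 1 / β := by positivity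
  have hCi : 0 < 2 * C3 / ε1 := by positivity
  have hCj : 0 < 32 * C2 / ε := by positivity
  have hℒL0 : L0 ≤ ℒ := by linarith
  have hℒ1 : 1 ≤ ℒ := hL0.trans hℒL0
  have hℒL1 : L1 ≤ ℒ := by linarith
  have hℒC3 : C3 ≤ ε1 / 2 * ℒ := by
    have h1 : 2 * C3 / ε1 ≤ ℒ := by linarith
    rw [div_le_iff₀ hε1] at h1
    linarith
  have hℒC2 : 32 * C2 ≤ ε * ℒ := by
    have h1 : 32 * C2 / ε ≤ ℒ := by linarith
    rw [div_le_iff₀ hε] at h1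
    linarith
  have hΛ1 : 1 ≤ β * ℒ := by
    have : 1 / β ≤ ℒ := by linarith
    rw [div_le_iff₀ hβ] at this
    linarith
  have hℒ0 : 0 < ℒ := by linarith
  obtain ⟨κ, hκd⟩ : ∃ κ : ℝ, κ = 4 * Real.sqrt ℒ := ⟨_, rfl⟩
  rw [← hκd] at hκT
  have hTℒ : T ≤ Real.exp ℒ := by
    calc T = Real.exp (Real.log T) := (Real.exp_log hT0).symm
      _ ≤ _ := Real.exp_le_exp.mpr hlogT
  obtain ⟨p1, p2, p3, p4, p5, p6⟩ := he_param β ℒ T κ hβ2 hℒ1 hκd hTℒ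
  have hκ0 : 0 ≤ κ := le_trans (by norm_num) p1
  have hκ1 : κ ≤ ε1 * T := hκT.trans (by
    refine mul_le_mul_of_nonneg_right ?_ hT0.le
    exact ((min_le_left _ _).trans (min_le_left _ _)).trans (min_le_left _ _))
  have hκs : κ ≤ εs * T := hκT.trans (by
    refine mul_le_mul_of_nonneg_right ?_ hT0.le
    exact ((min_le_left _ _).trans (min_le_left _ _)).trans (min_le_right _ _))
  have hκ8 : 8 * κ ≤ T := by
    have : κ ≤ 1 / 8 * T := hκT.trans (by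
      refine mul_le_mul_of_nonneg_right ?_ hT0.le
      exact (min_le_left _ _).trans (min_le_right _ _))
    linarith
  have hκC2 : C2 * κ ≤ ε / 32 * T := by
    have h1 : κ ≤ ε / (32 * (C2 + 1)) * T := hκT.trans (by
      refine mul_le_mul_of_nonneg_right ?_ hT0.le
      exact min_le_right _ _)
    calc C2 * κ ≤ (C2 + 1) * (ε / (32 * (C2 + 1)) * T) := by
          refine mul_le_mul (by linarith) h1 hκ0 (by linarith)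
      _ = ε / 32 * T := by field_simp
  obtain ⟨q4, Y, y1, y2, hy1, hy2, m5, m2, m4, m3, m1⟩ := hms q K T κ ℒ hq hq4 hK hT1 hℒL1
    hℒd hlq hX (le_trans (by norm_num) p1) p4 hκs
  obtain ⟨F, hFd⟩ : ∃ F : ℝ, F = ((FamP q K).card : ℝ) := ⟨_, rfl⟩
  rw [← hFd] at m1 ⊢
  have hF0 : 0 < F := by rw [hFd]; exact_mod_cast q4
  have hcr0 : 0 ≤ 1 / F := div_nonneg zero_le_one hF0.le
  have hW : ∑ _x ∈ FamP q K, (1 / F) = 1 := by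
    rw [Finset.sum_const, nsmul_eq_mul, ← hFd]
    exact mul_one_div_cancel hF0.ne'
  have hff := fam_factsP cd pr hprim q hq K T hT1
  have hdata : ∀ x ∈ FamP q K, 0 ≤ (1 / F) ∧ LogC (lck x.1 ‖tc (cd q x.2)‖) ∧
      GoodE 2 A (lck x.1 ‖tc (cd q x.2)‖) (LK x.1 (pr q x.2)) (aK x.1 (pr q x.2)) ∧
      lck x.1 ‖tc (cd q x.2)‖ T ≤ ℒ := by
    intro x hx
    obtain ⟨g1, g2, g3, g4⟩ := hff x hx
    rw [← hℒd] at g4
    exact ⟨hcr0, lck_logC _ g3, hgood' _ _ _ g1 g2, g4⟩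
  have k1 := hfam (FamP q K) (fun _ => 1 / F) (fun x => lck x.1 ‖tc (cd q x.2)‖)
    (fun x => LK x.1 (pr q x.2)) (fun x => aK x.1 (pr q x.2)) T κ (β * ℒ) ℒ y1 y2
    Y hdata p1 hκ8 p3 hΛ1 hℒ1 p5 hy1 hy2 m1 m2 m3
  have k2 := hfam' (FamP q K) (fun _ => 1 / F) (fun x => lck x.1 ‖tc (cd q x.2)‖)
    (fun x => LK x.1 (pr q x.2)) (fun x => aK x.1 (pr q x.2)) T κ (β * ℒ) ℒ y1 y2
    Y hdata p1 hκ8 p3 hΛ1 hℒ1 p5 hy1 hy2 m1 m2 m3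
  have hNlow := hlow q K T κ ℒ F hq hq4 hK hT1 p1 hκ8 hℒd hℒ0 hlq hℒC3 hFd hF0 p6
  clear hlow hms hfam hfam' hdata m1 m2 m3 hff hgood hgood'
  obtain ⟨SN, hSN⟩ : ∃ SN : ℝ, SN = ∑ x ∈ FamP q K, (1 / F) *
    (NN (LK x.1 (pr q x.2)) T (2 * T) : ℝ) := ⟨_, rfl⟩
  rw [← hSN] at hNlow
  have hFS : F * SN = ∑ x ∈ FamP q K, (NN (LK x.1 (pr q x.2)) T (2 * T) : ℝ) := by
    rw [hSN, ← Finset.mul_sum, ← mul_assoc, mul_one_div_cancel hF0.ne', one_mul]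
  have hTℒ0 : 0 ≤ T / (2 * Real.pi) * ℒ := by
    have := Real.pi_pos
    exact mul_nonneg (div_nonneg hT0.le (by positivity)) hℒ0.le
  have hNlowa : T / (2 * Real.pi) * ℒ * (1 - ε1a) - C2 * (T + κ * ℒ) ≤ SN / 2 := by
    refine le_trans ?_ hNlow
    exact sub_le_sub_right (mul_le_mul_of_nonneg_left (sub_le_sub_left hε1le 1) hTℒ0) _
  have m4a : (2 / (Real.sqrt Real.pi * (β * ℒ))) *
      (∫ u in (0 : ℝ)..(β * ℒ), Rw γ (u / (β * ℒ)) * Y u) ≤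
      T / (2 * Real.pi) * ℒ * (2 * β * J0 + ε1a) := by
    refine m4.trans ?_
    exact mul_le_mul_of_nonneg_left (add_le_add_right hε1le _) hTℒ0
  have hκ1a : κ ≤ ε1a * T := hκ1.trans (mul_le_mul_of_nonneg_right hε1le hT0.le)
  have m5a : Real.sqrt y1 + Real.sqrt y2 ≤ ε1a * ℒ :=
    m5.trans (mul_le_mul_of_nonneg_right hε1le hℒ0.le)
  have core : ∀ (D SM : ℝ), 0 < D → D ≤ CC →
      SM ≤ (∑ _x ∈ FamP q K, (1 / F)) * (2 * ℒ) ^ 2 * Rw γ 0 * T /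
          (2 * Real.pi * (β * ℒ)) +
        (2 / (Real.sqrt Real.pi * (β * ℒ))) *
          (∫ u in (0 : ℝ)..(β * ℒ), Rw γ (u / (β * ℒ)) * Y u) +
        D * ((∑ _x ∈ FamP q K, (1 / F)) *
          (ℒ ^ 2 * κ / (β * ℒ) + ℒ * T / (β * ℒ) + κ * ℒ) +
          Real.sqrt (∑ _x ∈ FamP q K, (1 / F)) * ℒ * T *
            (Real.sqrt y1 + Real.sqrt y2) / (β * ℒ)) →
      F * SM ≤ (2 * Rw γ 0 / β + β * J0 + ε) *
        ∑ x ∈ FamP q K, (NN (LK x.1 (pr q x.2)) T (2 * T) : ℝ) := by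
    intro D SM hD hDC hSM
    rw [hW, Real.sqrt_one, one_mul, one_mul, one_mul] at hSM
    have h1 : SM ≤ (4 * Rw γ 0 / β + 2 * β * J0 + 2 * ε) * (SN / 2) := by
      refine hnum T ℒ κ (Real.sqrt y1 + Real.sqrt y2) _ SM _ hT0 hℒL0 hκ0 hκ1a m5a m4a ?_ hNlowa
      refine hSM.trans ?_
      have hb : 0 ≤ (ℒ ^ 2 * κ / (β * ℒ) + ℒ * T / (β * ℒ) + κ * ℒ) +
          ℒ * T * (Real.sqrt y1 + Real.sqrt y2) / (β * ℒ) := by positivity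
      have h2 := mul_le_mul_of_nonneg_right hDC hb
      have e : (2 * ℒ) ^ 2 * Rw γ 0 * T = ℒ ^ 2 * (4 * Rw γ 0) * T := by ring
      rw [e]
      exact add_le_add_right h2 _
    have h2 : (4 * Rw γ 0 / β + 2 * β * J0 + 2 * ε) * (SN / 2) =
        (2 * Rw γ 0 / β + β * J0 + ε) * SN := by ring
    rw [h2] at h1
    calc F * SM ≤ F * ((2 * Rw γ 0 / β + β * J0 + ε) * SN) :=
          mul_le_mul_of_nonneg_left h1 hF0.le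
      _ = (2 * Rw γ 0 / β + β * J0 + ε) * (F * SN) := by ring
      _ = _ := by rw [hFS]
  refine ⟨q4, ?_, ?_, ?_⟩
  · have := core C1 _ hC1 (le_max_left _ _) k1
    refine le_trans (le_of_eq ?_) this
    rw [← Finset.mul_sum, ← mul_assoc, mul_one_div_cancel hF0.ne', one_mul]
  · have := core C1' _ hC1' (le_max_right _ _) k2
    refine le_trans (le_of_eq ?_) this
    rw [← Finset.mul_sum, ← mul_assoc, mul_one_div_cancel hF0.ne', one_mul]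
  · rw [← hFS]
    exact low_final C2 ε ε1 T κ ℒ F SN hC2 hε hε1ε hT0 hℒ0 hF0 hℒC2 hκC2 hNlow

end Pool.Agent.Y762.HP
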