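import Pool.Agent.Y762.HP.MS

/-!
Mean square of the full prime sums over the pairs `(k, χ)` with odd `k`.
-/

open Complex Filter Topology Set MeasureTheory

set_option autoImplicit false
set_option maxHeartbeats 4000000

namespace Pool.Agent.Y762.HP

open H385 hiding ee ee_norm ee_add SS
open Pool.Agent.H304R3.HK (tc LamK bb)
open Pool.Agent.W354.PK (psik aK HCk)
open Pool.Agent.W354.MS (uu uu_norm nrm_real bt_le_wt)
open Pool.Agent.Y762.HK (Lg Lg_one vv AllC mem_AllC OD OD_nonneg PrimData Fam mem_Fam card_k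
  card_Fam Sx point_k)

open Classical in
/-- the pairs `(k, χ)` with `k` odd, `k < 2 J`, and `χ(i) = (-i)^k` -/
noncomputable def FamP (q : ZI) (J : ℕ) : Finset (ℕ × MulChar (RQ q) ℂ) :=
  ((KO J) ×ˢ AllC q).filter (fun x => chiZ q x.2 im1 = (-I) ^ x.1)

theorem mem_FamP (q : ZI) (hq : q ≠ 0) (J : ℕ) (x : ℕ × MulChar (RQ q) ℂ) :
    x ∈ FamP q J ↔ x.1 ∈ KO J ∧ chiZ q x.2 im1 = (-I) ^ x.1 := by
  classical
  unfold FamP
  rw [Finset.mem_filter, Finset.mem_product]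
  constructor
  · rintro ⟨⟨h1, -⟩, h2⟩
    exact ⟨h1, h2⟩
  · rintro ⟨h1, h2⟩
    exact ⟨⟨h1, mem_AllC q hq _⟩, h2⟩

theorem FamP_sub (q : ZI) (hq : q ≠ 0) (J : ℕ) : FamP q J ⊆ Fam q 1 (2 * J) := by
  intro x hx
  obtain ⟨h1, h2⟩ := (mem_FamP q hq J x).1 hx
  obtain ⟨j, hj, h3⟩ := (mem_KO J x.1).1 h1
  rw [mem_Fam q hq]
  exact ⟨by omega, h2⟩

theorem card_FamP (q : ZI) (hq : 4 < nrm q) (J : ℕ) :
    ((FamP q J).card : ℝ) = (phiQ q : ℝ) * J / 4 := by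
  classical
  have h1 : (FamP q J).card = ∑ k ∈ KO J, ((AllC q).filter
      (fun χ => chiZ q χ im1 = (-I) ^ k)).card := by
    unfold FamP
    rw [Finset.card_filter, Finset.sum_product]
    refine Finset.sum_congr rfl fun k _ => ?_
    rw [Finset.card_filter]
  rw [h1]
  push_cast
  rw [Finset.sum_congr rfl fun k _ => card_k q hq k, Finset.sum_const, card_KO, nsmul_eq_mul]
  ring

theorem Sx_le_PPP (q : ZI) (K N : ℕ) (T u t : ℝ) :
    ∑ x ∈ FamP q K, ‖Sx q N T u x t‖ ^ 2 ≤ PPP q K N T u t := by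
  classical
  unfold PPP
  rw [← Finset.sum_product']
  unfold FamP
  exact Finset.sum_le_sum_of_subset_of_nonneg (Finset.filter_subset _ _)
    (fun _ _ _ => sq_nonneg _)

/-- mean square of the full prime sums -/
theorem full_ms2 : ∃ C : ℝ, 0 < C ∧ ∀ (q : ZI) (K N : ℕ) (cd : MulChar (RQ q) ℂ → ZI)
    (pr : MulChar (RQ q) ℂ → (ZI →* ℂ)) (T κ εs δ u : ℝ), q ≠ 0 → 4 < nrm q →
    (∀ χ : MulChar (RQ q) ℂ, PrimData q χ (cd χ) (pr χ)) → 1 ≤ N → 1 ≤ κ → 1 ≤ T →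
    T ≤ Real.exp (κ ^ 2) → 0 ≤ u → 0 < δ → 0 ≤ εs → εs ≤ 1 → Tl N u ≤ 1 →
    0 < (FamP q K).card → κ ≤ εs * T →
    (phiQ q : ℝ) * K / 4 ≤ (1 + εs) * (FamP q K).card →
    (phiQ q : ℝ) * Lg N ^ 2 * (OD q N T K + OD2 q N T K) ≤ εs * T * (FamP q K).card →
    ∫ t : ℝ, ∑ x ∈ FamP q K, (1 / ((FamP q K).card : ℝ)) *
      ‖∑' n : ℕ, aK x.1 (pr x.2) n * ((Real.sqrt n : ℂ)⁻¹ * bt T u t (Real.log n))‖ ^ 2 ≤
      YH cK δ C (nrm q) T (εs * T) u := by
  classical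
  obtain ⟨CS0, hCS0, hS, hcK, hlam⟩ := selb_cK
  obtain ⟨C1, hC1, h1⟩ := short_ms2
  obtain ⟨C2, hC2, h2⟩ := wt_sq_int
  obtain ⟨C6, hC6, h6⟩ := SW_le cK CS0 hS
  refine ⟨3 * C1 + C2 + C6, by positivity, ?_⟩
  intro q K N cd pr T κ εs δ u hq hq4 hpr hN hκ hT hTκ hu hδ hεs hεs1 hTl hF hκT hρ hOD
  have hT0 : 0 ≤ T := by linarith
  obtain ⟨a1, a2⟩ := h1 q K N T κ u hq hq4 hN hκ hT hTκ hu
  obtain ⟨b1, b2⟩ := h2 T hT0
  set F : ℝ := ((FamP q K).card : ℝ) with hFd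
  have hF0 : 0 < F := by rw [hFd]; exact_mod_cast hF
  have hG := Gq_nonneg (nrm q) u
  have hpt : ∀ (t : ℝ), ∀ x ∈ FamP q K, ‖∑' n : ℕ, aK x.1 (pr x.2) n * bn T u t n‖ ^ 2 ≤
      (1 + δ) * ‖Sx q N T u x t‖ ^ 2 +
      (1 + 1 / δ) * (wt T t ^ 2 * (4 * (Gq (nrm q) u + 1) ^ 2)) := by
    intro t x hx
    have hw := wt_nonneg T t hT0
    obtain ⟨-, hx2⟩ := (mem_FamP q hq K x).1 hx
    have h1 := point_k q (cd x.2) x.2 (pr x.2) x.1 ((hpr x.2).hck hq x.1 hx2) (hpr x.2).eq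
      N T u t hT0
    change ‖∑' n : ℕ, aK x.1 (pr x.2) n * bn T u t n - Sx q N T u x t‖ ≤ _ at h1
    set S := Sx q N T u x t with hS
    set R := ∑' n : ℕ, aK x.1 (pr x.2) n * bn T u t n with hR
    have h2 : R = S + (R - S) := by ring
    have h3 : ‖R - S‖ ≤ wt T t * (2 * (Gq (nrm q) u + 1)) := by
      refine h1.trans ?_
      refine mul_le_mul_of_nonneg_left ?_ hw
      linarith
    have h4 : ‖R - S‖ ^ 2 ≤ wt T t ^ 2 * (4 * (Gq (nrm q) u + 1) ^ 2) := by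
      have := pow_le_pow_left₀ (norm_nonneg _) h3 2
      refine this.trans (le_of_eq ?_)
      ring
    rw [h2]
    refine (FamLS.sq_add_le S (R - S) δ hδ).trans ?_
    have h5 : 0 ≤ 1 + 1 / δ := by positivity
    have h6 := mul_le_mul_of_nonneg_left h4 h5
    linarith
  have hsum : ∀ t : ℝ, ∑ x ∈ FamP q K, (1 / F) *
      ‖∑' n : ℕ, aK x.1 (pr x.2) n * bn T u t n‖ ^ 2 ≤
      (1 + δ) * (1 / F) * PPP q K N T u t +
      (1 + 1 / δ) * (4 * (Gq (nrm q) u + 1) ^ 2) * wt T t ^ 2 := by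
    intro t
    calc _ ≤ ∑ x ∈ FamP q K, (1 / F) * ((1 + δ) * ‖Sx q N T u x t‖ ^ 2 +
          (1 + 1 / δ) * (wt T t ^ 2 * (4 * (Gq (nrm q) u + 1) ^ 2))) :=
          Finset.sum_le_sum fun x hx => mul_le_mul_of_nonneg_left (hpt t x hx) (by positivity)
      _ = (1 + δ) * (1 / F) * ∑ x ∈ FamP q K, ‖Sx q N T u x t‖ ^ 2 +
          (1 + 1 / δ) * (4 * (Gq (nrm q) u + 1) ^ 2) * wt T t ^ 2 := by
          rw [← Finset.mul_sum, Finset.sum_add_distrib, Finset.sum_const, nsmul_eq_mul, ← hFd,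
            ← Finset.mul_sum]
          field_simp
      _ ≤ _ := by
          refine add_le_add (mul_le_mul_of_nonneg_left (Sx_le_PPP q K N T u t) (by positivity))
            le_rfl
  have hbig : ∫ t : ℝ, ∑ x ∈ FamP q K, (1 / F) *
      ‖∑' n : ℕ, aK x.1 (pr x.2) n * bn T u t n‖ ^ 2 ≤
      (1 + δ) * (1 / F) * (∫ t : ℝ, PPP q K N T u t) +
      (1 + 1 / δ) * (4 * (Gq (nrm q) u + 1) ^ 2) * ∫ t : ℝ, wt T t ^ 2 := by
    have i1 : Integrable (fun t => (1 + δ) * (1 / F) * PPP q K N T u t) := a1.const_mul _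
    have i2 : Integrable (fun t => (1 + 1 / δ) * (4 * (Gq (nrm q) u + 1) ^ 2) * wt T t ^ 2) :=
      b1.const_mul _
    rw [← integral_const_mul, ← integral_const_mul, ← integral_add i1 i2]
    refine integral_mono_of_nonneg ?_ (i1.add i2) ?_
    · exact Filter.Eventually.of_forall (fun t => Finset.sum_nonneg fun x _ => by positivity)
    · exact Filter.Eventually.of_forall hsum
  refine hbig.trans ?_
  set W : ℝ := T / (2 * Real.pi) * SW cK u with hW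
  obtain ⟨s0, s1⟩ := h6 u hu
  have hW0 : 0 ≤ W := by rw [hW]; positivity
  have hWle : W ≤ C6 * T * (u + 1) := by
    have h3 : T / (2 * Real.pi) ≤ T := by
      apply div_le_self hT0
      linarith [Real.pi_gt_three]
    calc W ≤ T * (C6 * (u + 1)) := mul_le_mul h3 s1 s0 hT0
      _ = _ := by ring
  have hmain : (1 / F) * (∫ t : ℝ, PPP q K N T u t) ≤
      W + (3 * C1 + C2 + C6) * (εs * T) * (u + 1) := by
    have g1 : (1 / F) * (∫ t : ℝ, PPP q K N T u t) ≤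
        (1 / F) * ((phiQ q : ℝ) * K / 4 * (W + C1 * κ * (u + 1)) +
          C1 * (phiQ q : ℝ) * Lg N ^ 2 * (OD q N T K + OD2 q N T K)) :=
      mul_le_mul_of_nonneg_left a2 (by positivity)
    refine g1.trans ?_
    have g2 : (1 / F) * ((phiQ q : ℝ) * K / 4) ≤ 1 + εs := by
      rw [one_div, inv_mul_le_iff₀ hF0]
      linarith
    have g3 : (1 / F) * ((phiQ q : ℝ) * Lg N ^ 2 * (OD q N T K + OD2 q N T K)) ≤ εs * T := by
      rw [one_div, inv_mul_le_iff₀ hF0]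
      linarith
    have g4 : 0 ≤ W + C1 * κ * (u + 1) := by positivity
    have g5 : C1 * κ * (u + 1) ≤ C1 * (εs * T) * (u + 1) := by gcongr
    have g6 : 0 ≤ εs * T := by positivity
    have g7 : 0 ≤ C1 * (εs * T) * (u + 1) := by positivity
    calc (1 / F) * ((phiQ q : ℝ) * K / 4 * (W + C1 * κ * (u + 1)) +
          C1 * (phiQ q : ℝ) * Lg N ^ 2 * (OD q N T K + OD2 q N T K)) =
        ((1 / F) * ((phiQ q : ℝ) * K / 4)) * (W + C1 * κ * (u + 1)) +
          C1 * ((1 / F) * ((phiQ q : ℝ) * Lg N ^ 2 * (OD q N T K + OD2 q N T K))) := by ring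
      _ ≤ (1 + εs) * (W + C1 * (εs * T) * (u + 1)) + C1 * (εs * T) := by
        refine add_le_add (mul_le_mul g2 (by linarith) g4 (by linarith)) ?_
        exact mul_le_mul_of_nonneg_left g3 hC1.le
      _ ≤ W + (3 * C1 + C2 + C6) * (εs * T) * (u + 1) := by
        have g8 : εs * W ≤ C6 * (εs * T) * (u + 1) := by
          calc εs * W ≤ εs * (C6 * T * (u + 1)) := mul_le_mul_of_nonneg_left hWle hεs
            _ = _ := by ring
        have g9 : εs * (C1 * (εs * T) * (u + 1)) ≤ 1 * (C1 * (εs * T) * (u + 1)) :=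
          mul_le_mul_of_nonneg_right hεs1 g7
        have g10 : C1 * (εs * T) ≤ C1 * (εs * T) * (u + 1) := by
          have : 0 ≤ C1 * (εs * T) := by positivity
          nlinarith
        have g11 : 0 ≤ C2 * (εs * T) * (u + 1) := by positivity
        nlinarith
  unfold YH
  have e4 : 0 ≤ 1 + δ := by positivity
  have e5 : 0 ≤ 1 + 1 / δ := by positivity
  refine add_le_add ?_ ?_
  · rw [mul_assoc]
    exact mul_le_mul_of_nonneg_left hmain e4
  · rw [mul_assoc]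
    refine mul_le_mul_of_nonneg_left ?_ e5
    calc 4 * (Gq (nrm q) u + 1) ^ 2 * ∫ t : ℝ, wt T t ^ 2 ≤
        4 * (Gq (nrm q) u + 1) ^ 2 * (T + C2) := mul_le_mul_of_nonneg_left b2 (by positivity)
      _ ≤ (T + (3 * C1 + C2 + C6)) * (4 * (Gq (nrm q) u + 1) ^ 2) := by
        rw [mul_comm]
        refine mul_le_mul_of_nonneg_right ?_ (by positivity)
        linarith

end Pool.Agent.Y762.HP
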