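import Pool.Agent.Y762.HK.Full
import Pool.Agent.Y762.HK.CountS3

/-!
Mean square over all the characters modulo `q`, the odd infinity types `k < 2 J` and the height.
-/

open Complex Filter Topology Set MeasureTheory

set_option autoImplicit false
set_option maxHeartbeats 4000000

namespace Pool.Agent.Y762.HP

open H385 hiding ee ee_norm ee_add SS
open Pool.Agent.H304R3.HK (tc LamK bb)
open Pool.Agent.W354.MS (uu uu_norm nrm_real bt_le_wt)
open Pool.Agent.Y762.HK (xx yy xx_nonneg yy_nonneg xx_comm yy_comm tm tm_nonneg tm_comm mi mi_nonneg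
  mi_le mi_le_inv norm_BX Lg Lg_one vv vv_norm vv_cont vv_pair AllC all_orth OD OD_nonneg
  nrm_neg norm_tc_neg pairs_le pairsS tc_neg)

/-- the odd numbers below `2 J` -/
def KO (J : ℕ) : Finset ℕ := (Finset.range J).image (fun j => 2 * j + 1)

theorem mem_KO (J k : ℕ) : k ∈ KO J ↔ ∃ j < J, k = 2 * j + 1 := by
  unfold KO
  rw [Finset.mem_image]
  constructor
  · rintro ⟨j, hj, rfl⟩
    exact ⟨j, Finset.mem_range.1 hj, rfl⟩
  · rintro ⟨j, hj, rfl⟩
    exact ⟨j, Finset.mem_range.2 hj, rfl⟩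

theorem sum_KO {M : Type*} [AddCommMonoid M] (J : ℕ) (f : ℕ → M) :
    ∑ k ∈ KO J, f k = ∑ j ∈ Finset.range J, f (2 * j + 1) := by
  unfold KO
  exact Finset.sum_image fun x _ y _ h => by
    have h' : 2 * x + 1 = 2 * y + 1 := h
    omega

theorem card_KO (J : ℕ) : (KO J).card = J := by
  unfold KO
  rw [Finset.card_image_of_injective _ (fun x y h => by
    have h' : 2 * x + 1 = 2 * y + 1 := h
    omega), Finset.card_range]

/-- sum over the infinity types -/
noncomputable def DkP (J : ℕ) (a b : ZI) : ℂ :=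
  ∑ k ∈ KO J, uu a ^ k * (starRingEnd ℂ) (uu b ^ k)

theorem DkP_self {a : ZI} (ha : a ≠ 0) (J : ℕ) : DkP J a a = J := by
  unfold DkP
  have h : ∀ k ∈ KO J, uu a ^ k * (starRingEnd ℂ) (uu a ^ k) = 1 := by
    intro k _
    rw [Complex.mul_conj', norm_pow, uu_norm ha]
    simp
  rw [Finset.sum_congr rfl h, Finset.sum_const, card_KO, nsmul_eq_mul, mul_one]

theorem uu_neg (b : ZI) : uu (-b) = -uu b := by
  unfold uu
  rw [tc_neg, norm_neg, neg_div]

theorem DkP_le {a b : ZI} (ha : a ≠ 0) (hb : b ≠ 0) (J : ℕ) :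
    ‖DkP J a b‖ ≤ 2 * (mi J (yy a b) + mi J (yy a (-b))) := by
  have hJ0 : (0 : ℝ) ≤ J := Nat.cast_nonneg J
  have hJ : ‖DkP J a b‖ ≤ J := by
    unfold DkP
    refine (norm_sum_le _ _).trans ?_
    have h : ∀ k ∈ KO J, ‖uu a ^ k * (starRingEnd ℂ) (uu b ^ k)‖ = 1 := by
      intro k _
      rw [norm_mul, RCLike.norm_conj, norm_pow, norm_pow, uu_norm ha, uu_norm hb]
      simp
    rw [Finset.sum_congr rfl h, Finset.sum_const, card_KO, nsmul_eq_mul, mul_one]
  set z : ℂ := uu a * (starRingEnd ℂ) (uu b) with hz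
  have hz1 : ‖z‖ = 1 := by
    rw [hz, norm_mul, RCLike.norm_conj, uu_norm ha, uu_norm hb, mul_one]
  have h4 : uu b * (starRingEnd ℂ) (uu b) = 1 := by
    rw [Complex.mul_conj', uu_norm hb]
    simp
  have hzm : ‖z - 1‖ = yy a b := by
    have hzb : z - 1 = (uu a - uu b) * (starRingEnd ℂ) (uu b) := by
      rw [hz]
      linear_combination h4
    rw [hzb, norm_mul, RCLike.norm_conj, uu_norm hb, mul_one]
    rfl
  have hzp : ‖z + 1‖ = yy a (-b) := by
    have hzb : z + 1 = (uu a - uu (-b)) * (starRingEnd ℂ) (uu b) := by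
      rw [hz, uu_neg]
      linear_combination -h4
    rw [hzb, norm_mul, RCLike.norm_conj, uu_norm hb, mul_one]
    rfl
  have hD : DkP J a b = z * ∑ i ∈ Finset.range J, (z ^ 2) ^ i := by
    unfold DkP
    rw [sum_KO, Finset.mul_sum]
    refine Finset.sum_congr rfl fun i _ => ?_
    rw [map_pow, ← mul_pow, ← hz, pow_succ, pow_mul]
    ring
  have h5 : ‖DkP J a b‖ * (yy a b * yy a (-b)) ≤ 2 := by
    rw [← hzm, ← hzp, ← norm_mul (z - 1), show (z - 1) * (z + 1) = z ^ 2 - 1 by ring, ← norm_mul, hD,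
      mul_assoc, geom_sum_mul, norm_mul, hz1, one_mul]
    refine (norm_sub_le _ _).trans ?_
    rw [norm_pow, norm_pow, hz1, one_pow, one_pow, norm_one]
    norm_num
  have h6 : 2 ≤ yy a b + yy a (-b) := by
    rw [← hzm, ← hzp]
    have h7 : (2 : ℂ) = (z + 1) - (z - 1) := by ring
    have h8 : ‖(2 : ℂ)‖ ≤ ‖z + 1‖ + ‖z - 1‖ := by
      rw [h7]
      exact norm_sub_le _ _
    have h9 : ‖(2 : ℂ)‖ = 2 := by norm_num
    rw [h9] at h8
    linarith
  have m1 := mi_nonneg hJ0 (yy_nonneg a b)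
  have m2 := mi_nonneg hJ0 (yy_nonneg a (-b))
  -- the general bound
  have key : ∀ x y : ℝ, 0 ≤ x → 1 ≤ y → ‖DkP J a b‖ * (x * y) ≤ 2 → ‖DkP J a b‖ ≤ 2 * mi J x := by
    intro x y hx hy h
    by_cases hx0 : x = 0
    · have e : mi (J : ℝ) x = J := by
        unfold mi
        rw [if_pos hx0]
      rw [e]
      linarith
    · have hx1 : 0 < x := lt_of_le_of_ne hx (Ne.symm hx0)
      have e : mi (J : ℝ) x = min (J : ℝ) x⁻¹ := by
        unfold mi
        rw [if_neg hx0]
      rw [e]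
      rcases min_choice (J : ℝ) x⁻¹ with h7 | h7
      · rw [h7]
        linarith
      · rw [h7, ← div_eq_mul_inv, le_div_iff₀ hx1]
        have h8 : ‖DkP J a b‖ * x ≤ ‖DkP J a b‖ * (x * y) := by
          refine mul_le_mul_of_nonneg_left ?_ (norm_nonneg _)
          nlinarith
        linarith
  rcases le_total 1 (yy a (-b)) with h7 | h7
  · have := key (yy a b) (yy a (-b)) (yy_nonneg _ _) h7 h5
    linarith
  · have h8 : 1 ≤ yy a b := by linarith
    have := key (yy a (-b)) (yy a b) (yy_nonneg _ _) h8 (by rw [mul_comm (yy a (-b))]; exact h5)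
    linarith

theorem he3_nrm' {q : ZI} (h : q ∣ 2) : nrm q ≤ 4 := by
  have h1 := he3_nrm h (by decide)
  have h2 : nrm (2 : ZI) = 4 := by decide
  omega

/-- the short mean square at a point -/
noncomputable def PPP (q : ZI) (J N : ℕ) (T u t : ℝ) : ℝ :=
  ∑ k ∈ KO J, ∑ χ ∈ AllC q,
    ‖(1 / 4 : ℂ) * ∑ a ∈ BX N, vv q T u a t * uu a ^ k * chiZ q χ a‖ ^ 2

open Classical in
/-- the sum over the off-diagonal pairs of the second kind -/
noncomputable def OD2 (q : ZI) (N : ℕ) (T K : ℝ) : ℝ :=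
  ∑ a ∈ BX N, ∑ b ∈ BX N, (if a ≠ b ∧ a ≠ -b ∧ q ∣ a - b then tm T K a (-b) else 0)

theorem OD2_nonneg (q : ZI) (N : ℕ) {T K : ℝ} (hT : 0 ≤ T) (hK : 0 ≤ K) : 0 ≤ OD2 q N T K := by
  unfold OD2
  refine Finset.sum_nonneg fun a _ => Finset.sum_nonneg fun b _ => ?_
  split_ifs
  · exact tm_nonneg hT hK a (-b)
  · exact le_rfl

open Classical in
theorem OD2_eq (q : ZI) (N : ℕ) (T K : ℝ) : OD2 q N T K =
    ∑ a ∈ BX N, ∑ b ∈ BX N, (if a ≠ b ∧ a ≠ -b ∧ q ∣ a + b then tm T K a b else 0) := by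
  unfold OD2
  refine Finset.sum_congr rfl fun a _ => ?_
  refine Finset.sum_nbij' (fun b => -b) (fun b => -b) ?_ ?_ ?_ ?_ ?_
  · intro b hb
    rw [H385.HE4.mem_BX] at hb ⊢
    rw [nrm_neg]
    exact hb
  · intro b hb
    rw [H385.HE4.mem_BX] at hb ⊢
    rw [nrm_neg]
    exact hb
  · intro b _
    exact neg_neg b
  · intro b _
    exact neg_neg b
  · intro b _
    rw [neg_neg, ← sub_eq_add_neg]
    have : (a ≠ b ∧ a ≠ -b ∧ q ∣ a - b) ↔ (a ≠ -b ∧ a ≠ b ∧ q ∣ a - b) := by tauto
    simp only [this]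

open Classical in
theorem PPP_eq (q : ZI) (hq : q ≠ 0) (J N : ℕ) (T u t : ℝ) :
    ((PPP q J N T u t : ℝ) : ℂ) = (phiQ q : ℂ) / 16 * ∑ a ∈ BX N, ∑ b ∈ BX N,
      (if q ∣ a - b then (vv q T u a t * (starRingEnd ℂ) (vv q T u b t)) * DkP J a b else 0) := by
  have h1 : ∀ (k : ℕ) (χ : MulChar (RQ q) ℂ),
      ((‖(1 / 4 : ℂ) * ∑ a ∈ BX N, vv q T u a t * uu a ^ k * chiZ q χ a‖ ^ 2 : ℝ) : ℂ) =
      (1 / 16 : ℂ) * ∑ a ∈ BX N, ∑ b ∈ BX N,
        ((vv q T u a t * (starRingEnd ℂ) (vv q T u b t)) *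
          (uu a ^ k * (starRingEnd ℂ) (uu b ^ k))) *
          (chiZ q χ a * (starRingEnd ℂ) (chiZ q χ b)) := by
    intro k χ
    push_cast
    rw [← Complex.mul_conj', map_mul, map_sum]
    have e4 : (starRingEnd ℂ) (1 / 4 : ℂ) = 1 / 4 := by
      rw [map_div₀, map_one, Complex.conj_ofNat]
    rw [e4]
    have e5 : (1 / 4 : ℂ) * (∑ a ∈ BX N, vv q T u a t * uu a ^ k * chiZ q χ a) *
        (1 / 4 * ∑ a ∈ BX N, (starRingEnd ℂ) (vv q T u a t * uu a ^ k * chiZ q χ a)) =
        1 / 16 * ((∑ a ∈ BX N, vv q T u a t * uu a ^ k * chiZ q χ a) *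
          ∑ a ∈ BX N, (starRingEnd ℂ) (vv q T u a t * uu a ^ k * chiZ q χ a)) := by ring
    rw [e5, Finset.sum_mul_sum]
    congr 1
    refine Finset.sum_congr rfl fun a _ => Finset.sum_congr rfl fun b _ => ?_
    rw [map_mul, map_mul]
    ring
  unfold PPP
  rw [Complex.ofReal_sum]
  have h2 : ∀ k ∈ KO J, ((∑ χ ∈ AllC q,
      ‖(1 / 4 : ℂ) * ∑ a ∈ BX N, vv q T u a t * uu a ^ k * chiZ q χ a‖ ^ 2 : ℝ) : ℂ) =
      (phiQ q : ℂ) / 16 * ∑ a ∈ BX N, ∑ b ∈ BX N, (if q ∣ a - b then
        (vv q T u a t * (starRingEnd ℂ) (vv q T u b t)) *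
          (uu a ^ k * (starRingEnd ℂ) (uu b ^ k)) else 0) := by
    intro k _
    rw [Complex.ofReal_sum, Finset.sum_congr rfl fun χ _ => h1 k χ, ← Finset.mul_sum,
      Finset.sum_comm]
    have h3 : ∀ a ∈ BX N, ∑ χ ∈ AllC q, ∑ b ∈ BX N,
        ((vv q T u a t * (starRingEnd ℂ) (vv q T u b t)) *
          (uu a ^ k * (starRingEnd ℂ) (uu b ^ k))) *
          (chiZ q χ a * (starRingEnd ℂ) (chiZ q χ b)) =
        ∑ b ∈ BX N, (phiQ q : ℂ) * (if q ∣ a - b then
        (vv q T u a t * (starRingEnd ℂ) (vv q T u b t)) *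
          (uu a ^ k * (starRingEnd ℂ) (uu b ^ k)) else 0) := by
      intro a _
      rw [Finset.sum_comm]
      refine Finset.sum_congr rfl fun b _ => ?_
      rw [← Finset.mul_sum]
      by_cases hb : IsCoprime b q
      · rw [all_orth q hq a b hb]
        by_cases h4 : q ∣ a - b
        · rw [if_pos h4, if_pos h4]
          ring
        · rw [if_neg h4, if_neg h4]
          ring
      · have h5 : vv q T u b t = 0 := by
          unfold vv
          rw [if_neg hb]
        rw [h5, map_zero, mul_zero, zero_mul, zero_mul]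
        simp
    rw [Finset.sum_congr rfl h3]
    simp only [← Finset.mul_sum]
    ring
  rw [Finset.sum_congr rfl h2, ← Finset.mul_sum, Finset.sum_comm]
  congr 1
  refine Finset.sum_congr rfl fun a _ => ?_
  rw [Finset.sum_comm]
  refine Finset.sum_congr rfl fun b _ => ?_
  by_cases h4 : q ∣ a - b
  · simp only [if_pos h4]
    rw [DkP, Finset.mul_sum]
  · simp only [if_neg h4]
    simp

open Classical in
/-- the mean square of the short sums -/
theorem short_ms2 : ∃ C : ℝ, 0 < C ∧ ∀ (q : ZI) (K N : ℕ) (T κ u : ℝ), q ≠ 0 → 4 < nrm q → 1 ≤ N →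
    1 ≤ κ → 1 ≤ T → T ≤ Real.exp (κ ^ 2) → 0 ≤ u →
    Integrable (fun t : ℝ => PPP q K N T u t) ∧
    ∫ t : ℝ, PPP q K N T u t ≤ (phiQ q : ℝ) * K / 4 *
      (T / (2 * Real.pi) * SW cK u + C * κ * (u + 1)) +
      C * (phiQ q : ℝ) * Lg N ^ 2 *
        (OD q N T K + OD2 q N T K) := by
  obtain ⟨CS0, hCS0, hS, hcK, hlam⟩ := selb_cK
  obtain ⟨C1, hC1, h1⟩ := btc_sum_int cK CS0 hS
  obtain ⟨C3, hC3, h3⟩ := vv_pair
  refine ⟨C1 + C3, by positivity, ?_⟩
  intro q K N T κ u hq hq4 hN hκ hT hTκ hu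
  have hT0 : 0 ≤ T := by linarith
  have hK0 : (0 : ℝ) ≤ K := Nat.cast_nonneg K
  have hφ0 : (0 : ℝ) ≤ phiQ q := Nat.cast_nonneg _
  have hL := Lg_one hN
  obtain ⟨a1, a2⟩ := h1 T κ u N hκ hT hTκ hu
  have e : (fun t : ℝ => ∑ n ∈ Finset.Icc 1 N, lamK2 n * ‖bn T u t n‖ ^ 2) =
      fun t => ∑ n ∈ Finset.Icc 1 N, (ArithmeticFunction.vonMangoldt n) ^ 2 *
        ‖cK n * ((Real.sqrt n : ℂ)⁻¹ * bt T u t (Real.log n))‖ ^ 2 := by
    funext t
    refine Finset.sum_congr rfl (fun n _ => ?_)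
    rw [hlam n, norm_mul (cK n), mul_pow]
    unfold bn
    ring
  rw [← e] at a1
  have a2' : ∫ t : ℝ, ∑ n ∈ Finset.Icc 1 N, lamK2 n * ‖bn T u t n‖ ^ 2 ≤
      T / (2 * Real.pi) * SW cK u + C1 * κ * (u + 1) := by
    rw [e]
    exact a2
  set O : ℝ → ℂ := fun t => ∑ a ∈ BX N, ∑ b ∈ BX N, (if a ≠ b ∧ q ∣ a - b then
      (vv q T u a t * (starRingEnd ℂ) (vv q T u b t)) * DkP K a b else 0) with hO
  set V : ℝ → ℝ := fun t => ∑ a ∈ BX N, ‖vv q T u a t‖ ^ 2 with hV
  have hid : ∀ t : ℝ, PPP q K N T u t =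
      (phiQ q : ℝ) / 16 * (K * V t + (O t).re) := by
    intro t
    have e1 := PPP_eq q hq K N T u t
    have e2 : ∑ a ∈ BX N, ∑ b ∈ BX N,
      (if q ∣ a - b then (vv q T u a t * (starRingEnd ℂ) (vv q T u b t)) * DkP K a b else 0) =
        ((K * V t : ℝ) : ℂ) + O t := by
      simp only [hO, hV]
      push_cast
      rw [Finset.mul_sum, ← Finset.sum_add_distrib]
      refine Finset.sum_congr rfl fun a ha => ?_
      have e3 : (K : ℂ) * ((‖vv q T u a t‖ : ℂ)) ^ 2 = ∑ b ∈ BX N,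
          (if a = b then (vv q T u a t * (starRingEnd ℂ) (vv q T u b t)) * DkP K a b
            else 0) := by
        rw [Finset.sum_ite_eq, if_pos ha, DkP_self (norm_BX ha).1, Complex.mul_conj', mul_comm]
      rw [e3, ← Finset.sum_add_distrib]
      refine Finset.sum_congr rfl fun b _ => ?_
      by_cases hab : a = b
      · subst hab
        rw [if_pos (by rw [sub_self]; exact dvd_zero _), if_pos rfl, if_neg (fun h => h.1 rfl),
          add_zero]
      · by_cases hr : q ∣ a - b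
        · rw [if_pos hr, if_neg hab, if_pos ⟨hab, hr⟩, zero_add]
        · rw [if_neg hr, if_neg hab, if_neg (fun h => hr h.2), zero_add]
    rw [e2] at e1
    have e4 := congrArg Complex.re e1
    rw [Complex.ofReal_re] at e4
    have e5 : (phiQ q : ℂ) / 16 = (((phiQ q : ℝ) / 16 : ℝ) : ℂ) := by push_cast; rfl
    rw [e4, e5, Complex.re_ofReal_mul, Complex.add_re, Complex.ofReal_re]
  have hV1 : ∀ t, V t ≤ 4 * ∑ n ∈ Finset.Icc 1 N, lamK2 n * ‖bn T u t n‖ ^ 2 := by
    intro t
    rw [← HE4.group]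
    exact Finset.sum_le_sum fun a _ => vv_norm q T u a t
  have hV0 : ∀ t, 0 ≤ V t := fun t => Finset.sum_nonneg fun a _ => sq_nonneg _
  have hVi : Integrable V := by
    refine (a1.const_mul 4).mono' ?_ (Eventually.of_forall fun t => ?_)
    · exact (continuous_finsetSum _ fun a _ =>
        ((vv_cont q T u a).norm.pow 2)).aestronglyMeasurable
    · rw [Real.norm_of_nonneg (hV0 t)]
      exact hV1 t
  have hOab : ∀ a ∈ BX N, ∀ b ∈ BX N, Integrable (fun t : ℝ => (if a ≠ b ∧ q ∣ a - b then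
      (vv q T u a t * (starRingEnd ℂ) (vv q T u b t)) * DkP K a b else 0)) := by
    intro a ha b hb
    by_cases h : a ≠ b ∧ q ∣ a - b
    · simp only [if_pos h]
      exact (h3 q N T u a b hN hT ha hb).1.mul_const _
    · simp only [if_neg h]
      exact integrable_zero _ _ _
  have hOi : Integrable O :=
    integrable_finsetSum _ fun a ha => integrable_finsetSum _ fun b hb => hOab a ha b hb
  have hfun : (fun t : ℝ => PPP q K N T u t) = fun t =>
      (phiQ q : ℝ) / 16 * (K * V t + (O t).re) := funext hid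
  have hVK : Integrable (fun t => (K : ℝ) * V t) := hVi.const_mul _
  have hOre : Integrable (fun t => (O t).re) := hOi.re
  constructor
  · rw [hfun]
    exact (hVK.add hOre).const_mul _
  · rw [hfun, integral_const_mul, integral_add hVK hOre, integral_const_mul]
    have k1 : ∫ t : ℝ, V t ≤ 4 * (T / (2 * Real.pi) * SW cK u + C1 * κ * (u + 1)) := by
      refine (integral_mono hVi (a1.const_mul 4) hV1).trans ?_
      rw [integral_const_mul]
      exact mul_le_mul_of_nonneg_left a2' (by norm_num)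
    have k2 : ∫ t : ℝ, (O t).re ≤ 2 * C3 * Lg N ^ 2 * (OD q N T K + OD2 q N T K) := by
      have r1 : ∫ t : ℝ, (O t).re = (∫ t : ℝ, O t).re := integral_re hOi
      rw [r1]
      refine (Complex.re_le_norm _).trans ?_
      simp only [hO]
      rw [integral_finsetSum _ (fun a ha => integrable_finsetSum _ fun b hb => hOab a ha b hb)]
      refine (norm_sum_le _ _).trans ?_
      unfold OD OD2
      rw [← Finset.sum_add_distrib, Finset.mul_sum]
      refine Finset.sum_le_sum fun a ha => ?_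
      rw [integral_finsetSum _ (fun b hb => hOab a ha b hb)]
      refine (norm_sum_le _ _).trans ?_
      rw [← Finset.sum_add_distrib, Finset.mul_sum]
      refine Finset.sum_le_sum fun b hb => ?_
      have t1 : 0 ≤ (if a ≠ b ∧ q ∣ a - b then tm T K a b else 0) := by
        split_ifs
        · exact tm_nonneg hT0 hK0 a b
        · exact le_rfl
      have t2 : 0 ≤ (if a ≠ b ∧ a ≠ -b ∧ q ∣ a - b then tm T K a (-b) else 0) := by
        split_ifs
        · exact tm_nonneg hT0 hK0 a (-b)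
        · exact le_rfl
      by_cases h : a ≠ b ∧ q ∣ a - b
      · by_cases hneg : a = -b
        · have hz : ∀ t : ℝ, vv q T u a t = 0 := by
            intro t
            unfold vv
            rw [if_neg]
            intro hc
            have h5 : q ∣ 2 * a := by
              have h6 : 2 * a = a - b := by
                rw [hneg]
                ring
              rw [h6]
              exact h.2
            have h6 : q ∣ 2 := (hc.symm.dvd_of_dvd_mul_right) h5
            have h7 := he3_nrm' h6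
            omega
          have e0 : (fun t : ℝ => if a ≠ b ∧ q ∣ a - b then
              vv q T u a t * (starRingEnd ℂ) (vv q T u b t) * DkP K a b else 0) = fun _ => 0 := by
            funext t
            rw [hz t]
            simp
          rw [e0, integral_zero, norm_zero]
          positivity
        · simp only [if_pos h]
          rw [if_pos (show a ≠ b ∧ a ≠ -b ∧ q ∣ a - b from ⟨h.1, hneg, h.2⟩)]
          rw [integral_mul_const, norm_mul]
          have e1 := (h3 q N T u a b hN hT ha hb).2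
          have e2 := DkP_le (norm_BX ha).1 (norm_BX hb).1 K
          have e3 := mul_le_mul e1 e2 (norm_nonneg _) (by
            have := mi_nonneg hT0 (xx_nonneg a b)
            positivity)
          refine e3.trans (le_of_eq ?_)
          have e4 : xx a (-b) = xx a b := by
            unfold xx
            rw [nrm_neg]
          unfold tm
          rw [e4, norm_tc_neg]
          ring
      · simp only [if_neg h]
        simp only [integral_zero, norm_zero]
        have : 0 ≤ (if a ≠ b ∧ a ≠ -b ∧ q ∣ a - b then tm T K a (-b) else 0) := t2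
        positivity
    set S : ℝ := OD q N T K + OD2 q N T K with hSd
    have hS0 : 0 ≤ S := add_nonneg (OD_nonneg q N hT0 hK0) (OD2_nonneg q N hT0 hK0)
    have hκ0 : 0 ≤ κ := by linarith
    have m1 : C1 * κ * (u + 1) ≤ (C1 + C3) * κ * (u + 1) := by gcongr; linarith
    have m2 : (phiQ q : ℝ) / 16 * (2 * C3 * Lg N ^ 2 * S) ≤ (C1 + C3) * phiQ q * Lg N ^ 2 * S := by
      have : 0 ≤ (phiQ q : ℝ) * Lg N ^ 2 * S := by positivity
      nlinarith
    have m3 := add_le_add (mul_le_mul_of_nonneg_left k1 hK0) k2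
    have m4 := mul_le_mul_of_nonneg_left m3 (show 0 ≤ (phiQ q : ℝ) / 16 by positivity)
    refine m4.trans ?_
    have m5 : (phiQ q : ℝ) / 16 * (K * (4 * (T / (2 * Real.pi) * SW cK u + C1 * κ * (u + 1))) +
          2 * C3 * Lg N ^ 2 * S) =
        (phiQ q : ℝ) * K / 4 * (T / (2 * Real.pi) * SW cK u + C1 * κ * (u + 1)) +
          (phiQ q : ℝ) / 16 * (2 * C3 * Lg N ^ 2 * S) := by ring
    rw [m5]
    refine add_le_add (mul_le_mul_of_nonneg_left ?_ (by positivity)) m2
    linarith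

end Pool.Agent.Y762.HP
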