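import Pool.Agent.Y762.HP.Full
import Pool.Agent.Y762.HK.Param

/-!
The parameters of the family of the odd infinity types.
-/

open Complex Filter Topology Set MeasureTheory

set_option autoImplicit false
set_option maxHeartbeats 4000000

namespace Pool.Agent.Y762.HP

open H385 hiding ee ee_norm ee_add SS
open Pool.Agent.H304R3.HK (tc LamK bb one_le_norm_tc)
open Pool.Agent.W354.MS (nrm_real)
open Pool.Agent.Y762.HK (Lg Lg_one OD OD_nonneg pairs_le pairsS exp_small nrm_pos)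

theorem od_le (δ : ℝ) (hδ : 0 < δ) : ∃ C : ℝ, 0 < C ∧ ∀ (q : ZI) (N : ℕ) (T K : ℝ), q ≠ 0 →
    1 ≤ N → 0 ≤ T → 0 ≤ K → OD q N T K + OD2 q N T K ≤
      C * ((4 * N : ℕ) : ℝ) ^ δ * Lg N ^ 5 *
        ((T + K) * (nrm q).divisors.card / ‖tc q‖ + N / nrm q) := by
  classical
  obtain ⟨C1, hC1, h1⟩ := pairs_le
  obtain ⟨C2, hC2, h2⟩ := pairsS δ hδ
  refine ⟨C1 + C2, by positivity, ?_⟩
  intro q N T K hq hN hT hK
  have hN0 : (1 : ℝ) ≤ N := by exact_mod_cast hN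
  have hL1 := Lg_one hN
  have a1 := h1 q N T K hq hN hT hK
  have a2 := h2 q N T K hq hN hT hK
  rw [← OD2_eq] at a2
  change OD q N T K ≤ _ at a1
  have hP : 1 ≤ ((4 * N : ℕ) : ℝ) ^ δ := by
    refine Real.one_le_rpow ?_ hδ.le
    push_cast
    linarith
  set B : ℝ := (T + K) * (nrm q).divisors.card / ‖tc q‖ + N / nrm q with hB
  have hB0 : 0 ≤ B := by positivity
  have hL0 : 0 ≤ Lg N := by linarith
  have a3 : C1 * Lg N ^ 5 * B ≤ C1 * ((4 * N : ℕ) : ℝ) ^ δ * Lg N ^ 5 * B := by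
    refine mul_le_mul_of_nonneg_right ?_ hB0
    refine mul_le_mul_of_nonneg_right ?_ (by positivity)
    exact le_mul_of_one_le_right hC1.le hP
  calc OD q N T K + OD2 q N T K ≤ C1 * ((4 * N : ℕ) : ℝ) ^ δ * Lg N ^ 5 * B +
        C2 * ((4 * N : ℕ) : ℝ) ^ δ * Lg N ^ 5 * B := add_le_add (a1.trans a3) a2
    _ = _ := by ring

/-- the conditions for a small mean square of the off-diagonal terms -/
theorem hp_param (h s ε' : ℝ) (hh : 1 / 2 < h) (hh1 : h ≤ 1) (hs : 0 < s) (hε : 0 < ε') :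
    ∃ L0 : ℝ, 1 ≤ L0 ∧ ∀ (q : ZI) (K N : ℕ) (T ℒ : ℝ), q ≠ 0 → 1 ≤ K → 1 ≤ T → L0 ≤ ℒ →
      ℒ = Real.log (‖tc q‖ * (1 + 2 * K + T)) →
      Real.exp (2 * h * ℒ) ≤ ‖tc q‖ ^ 2 * K * T → 1 ≤ N →
      (N : ℝ) ≤ 2 * Real.exp ((2 * h - 4 * s) * ℒ + s * ℒ) →
      Lg N ^ 2 * (OD q N T K + OD2 q N T K) ≤ ε' * (T * K) := by
  classical
  set δ : ℝ := (2 * h - 1) / 4 with hδ
  have hδ0 : 0 < δ := by rw [hδ]; linarith
  set δ2 : ℝ := min (min δ s / 2) 1 with hδ2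
  have hδ20 : 0 < δ2 := lt_min (by positivity) one_pos
  have hδ2a : δ2 ≤ δ / 2 := by
    have h1 : δ2 ≤ min δ s / 2 := min_le_left _ _
    have h2 : min δ s ≤ δ := min_le_left _ _
    linarith
  have hδ2b : δ2 ≤ s / 2 := by
    have h1 : δ2 ≤ min δ s / 2 := min_le_left _ _
    have h2 : min δ s ≤ s := min_le_right _ _
    linarith
  have hδ2c : δ2 ≤ 1 := min_le_right _ _
  obtain ⟨C, hC, hpair⟩ := od_le δ2 hδ20
  obtain ⟨C1, hC1, hdiv⟩ := Pool.Agent.H369R2.divisor_bound δ hδ0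
  have e1 := exp_small (C * 8 * 4 ^ 7 * (2 * C1)) δ (ε' / 2) hδ0 (by positivity)
  have e2 := exp_small (C * 8 * 4 ^ 7 * 2) (2 * s) (ε' / 2) (by positivity) (by positivity)
  obtain ⟨L1, hL1⟩ := (e1.and e2).exists_forall_of_atTop
  refine ⟨max 1 L1, le_max_left _ _, ?_⟩
  intro q K N T ℒ hq hK hT hℒ hℒd hX hN hNb
  have hℒ1 : 1 ≤ ℒ := (le_max_left _ _).trans hℒ
  obtain ⟨f1, f2⟩ := hL1 ℒ ((le_max_right _ _).trans hℒ)
  have hℒ0 : 0 < ℒ := by linarith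
  set Q : ℝ := ‖tc q‖ with hQ
  have hQ1 : 1 ≤ Q := one_le_norm_tc hq
  have hQ0 : 0 < Q := by linarith
  have hK1 : (1 : ℝ) ≤ K := by exact_mod_cast hK
  have hT0 : 0 < T := by linarith
  have hexp : Real.exp ℒ = Q * (1 + 2 * K + T) := by
    rw [hℒd, Real.exp_log (by positivity)]
  have hQT : Q * T ≤ Real.exp ℒ := by
    rw [hexp]
    exact mul_le_mul_of_nonneg_left (by linarith) hQ0.le
  have hQK : Q * K ≤ Real.exp ℒ := by
    rw [hexp]
    exact mul_le_mul_of_nonneg_left (by linarith) hQ0.le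
  have hsplit : Real.exp (2 * h * ℒ) = Real.exp ((2 * h - 1) * ℒ) * Real.exp ℒ := by
    rw [← Real.exp_add]
    congr 1
    ring
  rw [hsplit] at hX
  have hE := Real.exp_pos ℒ
  have gK : Real.exp ((2 * h - 1) * ℒ) ≤ Q * K := by
    have h1 : Real.exp ((2 * h - 1) * ℒ) * Real.exp ℒ ≤ (Q * K) * Real.exp ℒ := by
      calc _ ≤ Q ^ 2 * K * T := hX
        _ = (Q * K) * (Q * T) := by ring
        _ ≤ _ := mul_le_mul_of_nonneg_left hQT (by positivity)
    exact le_of_mul_le_mul_right h1 hE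
  have gT : Real.exp ((2 * h - 1) * ℒ) ≤ Q * T := by
    have h1 : Real.exp ((2 * h - 1) * ℒ) * Real.exp ℒ ≤ (Q * T) * Real.exp ℒ := by
      calc _ ≤ Q ^ 2 * K * T := hX
        _ = (Q * T) * (Q * K) := by ring
        _ ≤ _ := mul_le_mul_of_nonneg_left hQK (by positivity)
    exact le_of_mul_le_mul_right h1 hE
  have hN1 : (1 : ℝ) ≤ N := by exact_mod_cast hN
  have hexp2 : (2 * h - 4 * s) * ℒ + s * ℒ ≤ 2 * ℒ := by nlinarith
  have hLg : Lg N ≤ 4 * ℒ := by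
    unfold Lg
    have h1 : Real.log N ≤ Real.log (2 * Real.exp ((2 * h - 4 * s) * ℒ + s * ℒ)) :=
      Real.log_le_log (by linarith) hNb
    rw [Real.log_mul (by norm_num) (Real.exp_pos _).ne', Real.log_exp] at h1
    have h2 := Real.log_two_lt_d9
    linarith
  have hLg0 : 0 ≤ Lg N := by linarith [Lg_one hN]
  have hN4 : ((4 * N : ℕ) : ℝ) ^ δ2 ≤ 8 * Real.exp (2 * δ2 * ℒ) := by
    have h1 : ((4 * N : ℕ) : ℝ) ≤ 8 * Real.exp (2 * ℒ) := by
      push_cast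
      have := Real.exp_le_exp.mpr hexp2
      linarith
    calc ((4 * N : ℕ) : ℝ) ^ δ2 ≤ (8 * Real.exp (2 * ℒ)) ^ δ2 :=
          Real.rpow_le_rpow (Nat.cast_nonneg _) h1 hδ20.le
      _ = 8 ^ δ2 * Real.exp (2 * δ2 * ℒ) := by
          rw [Real.mul_rpow (by norm_num) (Real.exp_pos _).le, ← Real.exp_mul]
          congr 2
          ring
      _ ≤ _ := by
          refine mul_le_mul_of_nonneg_right ?_ (Real.exp_pos _).le
          calc (8 : ℝ) ^ δ2 ≤ 8 ^ (1 : ℝ) := Real.rpow_le_rpow_of_exponent_le (by norm_num) hδ2c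
            _ = 8 := Real.rpow_one 8
  -- the divisor function
  have hτ : ((nrm q).divisors.card : ℝ) ≤ C1 * Real.exp (2 * δ * ℒ) := by
    refine (hdiv (nrm q) (nrm_pos hq)).trans ?_
    refine mul_le_mul_of_nonneg_left ?_ hC1.le
    rw [nrm_real, ← hQ]
    have h1 : Q ≤ Real.exp ℒ := by
      rw [hexp]
      calc Q = Q * 1 := (mul_one Q).symm
        _ ≤ _ := mul_le_mul_of_nonneg_left (by linarith) hQ0.le
    have h2 : Q ^ 2 ≤ Real.exp (2 * ℒ) := by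
      have : Real.exp (2 * ℒ) = Real.exp ℒ ^ 2 := by rw [← Real.exp_nat_mul]; norm_num
      rw [this]
      exact pow_le_pow_left₀ hQ0.le h1 2
    calc (Q ^ 2) ^ δ ≤ (Real.exp (2 * ℒ)) ^ δ := Real.rpow_le_rpow (by positivity) h2 hδ0.le
      _ = Real.exp (2 * δ * ℒ) := by
        rw [← Real.exp_mul]
        congr 1
        ring
  have hOD := hpair q N T K hq hN hT0.le (by linarith)
  rw [← hQ] at hOD
  have hb1 : (T + K) * ((nrm q).divisors.card : ℝ) / Q ≤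
      (T * K) * (2 * C1 * Real.exp (-(2 * δ * ℒ))) := by
    have h1 : (T + K) / Q ≤ (T * K) * (2 * Real.exp (-((2 * h - 1) * ℒ))) := by
      rw [div_le_iff₀ hQ0, Real.exp_neg]
      have hx := Real.exp_pos ((2 * h - 1) * ℒ)
      have h2 : 1 ≤ Q * K * (Real.exp ((2 * h - 1) * ℒ))⁻¹ := by
        rw [← div_eq_mul_inv, le_div_iff₀ hx, one_mul]
        exact gK
      have h3 : 1 ≤ Q * T * (Real.exp ((2 * h - 1) * ℒ))⁻¹ := by
        rw [← div_eq_mul_inv, le_div_iff₀ hx, one_mul]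
        exact gT
      have h4 := mul_le_mul_of_nonneg_left h2 hT0.le
      have h5 := mul_le_mul_of_nonneg_left h3 (show (0 : ℝ) ≤ K by linarith)
      nlinarith
    calc (T + K) * ((nrm q).divisors.card : ℝ) / Q =
        ((T + K) / Q) * ((nrm q).divisors.card : ℝ) := by ring
      _ ≤ ((T * K) * (2 * Real.exp (-((2 * h - 1) * ℒ)))) * (C1 * Real.exp (2 * δ * ℒ)) :=
        mul_le_mul h1 hτ (by positivity) (by positivity)
      _ = (T * K) * (2 * C1 * (Real.exp (-((2 * h - 1) * ℒ)) * Real.exp (2 * δ * ℒ))) := by ring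
      _ = _ := by
        rw [← Real.exp_add]
        congr 3
        rw [hδ]
        ring
  have hb2 : (N : ℝ) / nrm q ≤ (T * K) * (2 * Real.exp (-(3 * s * ℒ))) := by
    have hn0 : (0 : ℝ) < nrm q := by exact_mod_cast nrm_pos hq
    rw [div_le_iff₀ hn0, nrm_real, ← hQ]
    have h1 : Real.exp ((2 * h - 4 * s) * ℒ + s * ℒ) =
        Real.exp (-(3 * s * ℒ)) * (Real.exp ((2 * h - 1) * ℒ) * Real.exp ℒ) := by
      rw [← Real.exp_add, ← Real.exp_add]
      congr 1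
      ring
    rw [h1] at hNb
    refine hNb.trans ?_
    have h2 := mul_le_mul_of_nonneg_left hX (Real.exp_pos (-(3 * s * ℒ))).le
    calc 2 * (Real.exp (-(3 * s * ℒ)) * (Real.exp ((2 * h - 1) * ℒ) * Real.exp ℒ)) ≤
        2 * (Real.exp (-(3 * s * ℒ)) * (Q ^ 2 * K * T)) := by linarith
      _ = _ := by ring
  have hTK : 0 < T * K := by positivity
  have hbr : 0 ≤ (T + K) * ((nrm q).divisors.card : ℝ) / Q + N / nrm q := by positivity
  have hx1 : Real.exp (2 * δ2 * ℒ) * Real.exp (-(2 * δ * ℒ)) ≤ Real.exp (-(δ * ℒ)) := by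
    rw [← Real.exp_add]
    apply Real.exp_le_exp.mpr
    nlinarith
  have hx2 : Real.exp (2 * δ2 * ℒ) * Real.exp (-(3 * s * ℒ)) ≤ Real.exp (-(2 * s * ℒ)) := by
    rw [← Real.exp_add]
    apply Real.exp_le_exp.mpr
    nlinarith
  calc Lg N ^ 2 * (OD q N T K + OD2 q N T K) ≤ Lg N ^ 2 * (C * ((4 * N : ℕ) : ℝ) ^ δ2 * Lg N ^ 5 *
        ((T + K) * (nrm q).divisors.card / Q + N / nrm q)) :=
        mul_le_mul_of_nonneg_left hOD (by positivity)
    _ = C * ((4 * N : ℕ) : ℝ) ^ δ2 * Lg N ^ 7 *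
        ((T + K) * (nrm q).divisors.card / Q + N / nrm q) := by ring
    _ ≤ C * (8 * Real.exp (2 * δ2 * ℒ)) * (4 * ℒ) ^ 7 *
        ((T * K) * (2 * C1 * Real.exp (-(2 * δ * ℒ))) +
        (T * K) * (2 * Real.exp (-(3 * s * ℒ)))) := by
        refine mul_le_mul ?_ (add_le_add hb1 hb2) hbr (by positivity)
        refine mul_le_mul ?_ (pow_le_pow_left₀ hLg0 hLg 7) (by positivity) (by positivity)
        exact mul_le_mul_of_nonneg_left hN4 hC.le
    _ = (C * 8 * 4 ^ 7 * (2 * C1) * ℒ ^ 7 * (Real.exp (2 * δ2 * ℒ) * Real.exp (-(2 * δ * ℒ))) +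
        C * 8 * 4 ^ 7 * 2 * ℒ ^ 7 * (Real.exp (2 * δ2 * ℒ) * Real.exp (-(3 * s * ℒ)))) *
          (T * K) := by ring
    _ ≤ (C * 8 * 4 ^ 7 * (2 * C1) * ℒ ^ 7 * Real.exp (-(δ * ℒ)) +
        C * 8 * 4 ^ 7 * 2 * ℒ ^ 7 * Real.exp (-(2 * s * ℒ))) * (T * K) := by
        refine mul_le_mul_of_nonneg_right (add_le_add ?_ ?_) hTK.le
        · exact mul_le_mul_of_nonneg_left hx1 (by positivity)
        · exact mul_le_mul_of_nonneg_left hx2 (by positivity)
    _ ≤ (ε' / 2 + ε' / 2) * (T * K) :=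
        mul_le_mul_of_nonneg_right (add_le_add f1 f2) hTK.le
    _ = _ := by ring

end Pool.Agent.Y762.HP
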